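import Pool.Agent.Helper65_PV.KC3
import Pool.Agent.Helper65_PV.TR

/-!
Squad PV3 (MP_e25c73_gt): in three-dimensional space every polytope without parallel facets is
determined, among all convex bodies, by its projection volumes and projection centroids.
Definitions and statements of all modules. Paper: /team-store/PAPER_PV3.md
-/

set_option autoImplicit false

open MeasureTheory Metric Set Filter Topology Pointwise

namespace PV3

open PV

/-- The polyhedron with (unit) normals in `U` and numbers `c`. -/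
def Pl {n : ℕ} (U : Finset (E n)) (c : E n → ℝ) : Set (E n) := {x | ∀ w ∈ U, inner ℝ x w ≤ c w}

/-- The support function. -/
noncomputable def hs {n : ℕ} (K : Set (E n)) (w : E n) : ℝ := sSup ((fun x => inner ℝ x w) '' K)

/-- The volume, as a real number. -/
noncomputable def vl {n : ℕ} (S : Set (E n)) : ℝ := (volume S).toReal

/-- The prism of height `1` over the projection of `S` along `w`. -/
def Pr {n : ℕ} (w : E n) (S : Set (E n)) : Set (E n) :=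
  {y | ∃ x ∈ S, ∃ s ∈ Icc (0 : ℝ) 1, y = proj w x + s • w}

/-- The `(n-1)`-dimensional volume of the projection of `S` along the unit vector `w`. -/
noncomputable def ar {n : ℕ} (w : E n) (S : Set (E n)) : ℝ := vl (Pr w S)

/-- The face of the polyhedron `Pl U c` in the hyperplane with normal `w`. -/
def Fc {n : ℕ} (U : Finset (E n)) (c : E n → ℝ) (w : E n) : Set (E n) :=
  {x | x ∈ Pl U c ∧ inner ℝ x w = c w}

/-- The area of this face. -/
noncomputable def fa {n : ℕ} (U : Finset (E n)) (c : E n → ℝ) (w : E n) : ℝ := ar w (Fc U c w)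

/-- Unit vectors. -/
def Un {n : ℕ} (U : Finset (E n)) : Prop := ∀ w ∈ U, ‖w‖ = 1

/-- All polyhedra with normals in `U` are bounded. -/
def Bd {n : ℕ} (U : Finset (E n)) : Prop := ∀ c : E n → ℝ, Bornology.IsBounded (Pl U c)

/-- Convex bodies. -/
structure Cb {n : ℕ} (K : Set (E n)) : Prop where
  cpt : IsCompact K
  cvx : Convex ℝ K
  full : Full K

/-! ### Part A: areas -/

/-- AR: the basic facts on areas of compact sets. -/
def ARStmt : Prop := ∀ (n : ℕ) (w : E n), ‖w‖ = 1 →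
  (∀ S : Set (E n), IsCompact S → ∀ a b : ℝ, a ≤ b →
    vl {x | x ∈ S ∧ a ≤ inner ℝ x w ∧ inner ℝ x w ≤ b} ≤ (b - a) * ar w S) ∧
  (∀ S : Set (E n), IsCompact S → ∀ a : ℝ, (∀ x ∈ S, inner ℝ x w = a) → ∀ q : E n,
    0 ≤ inner ℝ q w → ∀ t : ℝ, 0 ≤ t →
    vl {y | ∃ x ∈ S, ∃ s ∈ Icc (0 : ℝ) t, y = x + s • q} = t * inner ℝ q w * ar w S) ∧
  (∀ S S' : Set (E n), IsCompact S' → S ⊆ S' → ar w S ≤ ar w S') ∧
  (∀ (S : ℕ → Set (E n)), (∀ j, IsCompact (S j)) → Antitone S →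
    Tendsto (fun j => ar w (S j)) atTop (𝓝 (ar w (⋂ j, S j))))

/-- AN: sets of area zero. -/
def ANStmt : Prop := ∀ (n : ℕ) (w : E n), ‖w‖ = 1 →
  (∀ (S : Set (E n)) (w' : E n) (a b : ℝ), ‖w'‖ = 1 → w' ≠ w → w' ≠ -w →
    (∀ x ∈ S, inner ℝ x w = a ∧ inner ℝ x w' = b) → ar w S = 0) ∧
  (∀ S : Set (E n), Module.finrank ℝ (vectorSpan ℝ S) + 1 < n → ar w S = 0)

/-- BDL: one nonempty bounded polyhedron is enough. -/
def BDLStmt : Prop := ∀ (n : ℕ) (U : Finset (E n)) (c : E n → ℝ), (Pl U c).Nonempty →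
  Bornology.IsBounded (Pl U c) → Bd U

/-! ### Part B: first variation of the volume of polytopes -/

/-- DER: outward variation. -/
def DERStmt : Prop := ∀ (n : ℕ) (U : Finset (E n)) (c d : E n → ℝ), Un U → Bd U →
  Full (Pl U c) → (∀ w ∈ U, 0 ≤ d w) →
  Tendsto (fun t : ℝ => (vl (Pl U fun w => c w + t * d w) - vl (Pl U c)) / t) (𝓝[>] 0)
    (𝓝 (∑ w ∈ U, fa U c w * d w))

/-- INN: inward variation. -/
def INNStmt : Prop := ∀ (n : ℕ) (U : Finset (E n)) (c d : E n → ℝ), Un U → Bd U →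
  (∀ w ∈ U, 0 ≤ d w) → ∀ e : ℝ, 0 < e → ∀ᶠ t : ℝ in 𝓝[>] 0,
    vl (Pl U c) - vl (Pl U fun w => c w - t * d w) ≤ t * (∑ w ∈ U, fa U c w * d w + e)

/-- REL: Minkowski's relation and the volume formula. -/
def RELStmt : Prop := ∀ (n : ℕ) (U : Finset (E n)) (c : E n → ℝ), Un U → Bd U →
  Full (Pl U c) → (∑ w ∈ U, fa U c w • w = 0) ∧ ∑ w ∈ U, fa U c w * c w = n * vl (Pl U c)

/-- OUT: lower bound for the volume of a Minkowski sum. -/
def OUTStmt : Prop := ∀ (n : ℕ) (U : Finset (E n)) (c : E n → ℝ) (K : Set (E n)), Un U → Bd U →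
  Full (Pl U c) → IsCompact K → Convex ℝ K → (0 : E n) ∈ K → ∀ e : ℝ, 0 < e →
  ∀ᶠ t : ℝ in 𝓝[>] 0,
    vl (Pl U c) + t * (∑ w ∈ U, fa U c w * hs K w - e) ≤ vl (Pl U c + t • K)

/-- FCT: a polytope is the intersection of the half spaces of its facets. -/
def FCTStmt : Prop := ∀ (n : ℕ) (U : Finset (E n)) (c : E n → ℝ), Un U → Bd U →
  Full (Pl U c) → ∀ x : E n, x ∉ Pl U c → ∃ w ∈ U, 0 < fa U c w ∧ c w < inner ℝ x w

/-! ### Part C: the volume of Minkowski sums -/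

/-- VPO: a bounded polyhedron is the convex hull of a finite set. -/
def VPOStmt : Prop := ∀ (n : ℕ) (U : Finset (E n)) (c : E n → ℝ),
  Bornology.IsBounded (Pl U c) → ∃ S : Finset (E n), Pl U c = convexHull ℝ (S : Set (E n))

/-- POL: the volume of `M + t K` is a cubic polynomial with leading coefficient `vol K`. -/
def POLStmt : Prop := ∀ S S' : Finset (E 3), Full (convexHull ℝ (S : Set (E 3))) →
  Full (convexHull ℝ (S' : Set (E 3))) → ∃ g₁ g₂ : ℝ, ∀ t : ℝ, 0 ≤ t →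
  vl (convexHull ℝ (S : Set (E 3)) + t • convexHull ℝ (S' : Set (E 3))) =
    vl (convexHull ℝ (S : Set (E 3))) + g₁ * t + g₂ * t ^ 2 +
      vl (convexHull ℝ (S' : Set (E 3))) * t ^ 3

/-- BM: the Brunn-Minkowski inequality for compact sets. -/
def BMStmt : Prop := ∀ (n : ℕ), 1 ≤ n → ∀ A B : Set (E n), IsCompact A → IsCompact B →
  A.Nonempty → B.Nonempty → ∀ a b : ℝ, 0 ≤ a → 0 ≤ b → a ^ n ≤ vl A → b ^ n ≤ vl B →
  (a + b) ^ n ≤ vl (A + B)

/-- INR: the inradius of `Pl U c` relative to `Pl U d`. -/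
def INRStmt : Prop := ∀ (n : ℕ), 1 ≤ n → ∀ (U : Finset (E n)) (c d : E n → ℝ), Un U → Bd U →
  Full (Pl U c) → (∀ w ∈ U, 0 < d w) → ∃ r : ℝ, 0 ≤ r ∧
    (Pl U fun w => c w - r * d w).Nonempty ∧ vl (Pl U fun w => c w - r * d w) = 0

/-- DDD: the main inequality `V(L) - V(K) < 3 r (V_1(L,K) - V(K))` for `r < 1`. -/
def DDDStmt : Prop := ∀ (U : Finset (E 3)) (c d : E 3 → ℝ) (r : ℝ), Un U → Bd U →
  Full (Pl U c) → Full (Pl U d) → (∀ w ∈ U, hs (Pl U d) w = d w) → (∀ w ∈ U, 0 < d w) →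
  0 ≤ r → r < 1 → vl (Pl U fun w => c w - r * d w) = 0 → vl (Pl U d) < vl (Pl U c) →
  vl (Pl U c) - vl (Pl U d) < r * (∑ w ∈ U, fa U c w * d w - 3 * vl (Pl U d))

/-- ASY: `-K` is contained in a translate of `n K`. -/
def ASYStmt : Prop := ∀ (n : ℕ) (K : Set (E n)), Cb K → ∃ g : E n, ∀ w : E n,
  hs K (-w) ≤ n * hs K w + inner ℝ g w

/-! ### Part D: the data -/

/-- GEN: a generic direction. -/
def GENStmt : Prop := ∀ (n : ℕ), 2 ≤ n → ∀ (V : Finset (E n)) (ν : E n), Un V → ‖ν‖ = 1 →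
  ∃ u : E n, ‖u‖ = 1 ∧ inner ℝ u ν = 0 ∧ ∀ w ∈ V, w ≠ ν → w ≠ -ν → inner ℝ u w ≠ 0

/-- COO: coordinates. -/
def COOStmt : Prop := ∀ (n : ℕ) (u ν : E (n + 2)), ‖u‖ = 1 → ‖ν‖ = 1 → inner ℝ u ν = 0 →
  ∃ ι : E n →ₗᵢ[ℝ] E (n + 2), (∀ z, inner ℝ u (ι z) = 0) ∧ (∀ z, inner ℝ ν (ι z) = 0) ∧
    MeasurePreserving (coord u ν ι)
      ((volume : Measure ℝ).prod ((volume : Measure ℝ).prod (volume : Measure (E n)))) volume

/-- REG: touching balls. -/
def REGStmt : Prop := ∀ (n : ℕ), 1 ≤ n → ∀ L : Set (E n), Cb L → ∀ x : E n, x ∉ L →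
  ∃ (y ν : E n) (ρ : ℝ), 0 < ρ ∧ ‖ν‖ = 1 ∧ closedBall y ρ ⊆ L ∧
    (∀ z ∈ L, inner ℝ z ν ≤ inner ℝ y ν + ρ) ∧ inner ℝ y ν + ρ < inner ℝ x ν

/-- SEK: the second difference of the shadows vanishes if no face contains the direction. -/
def SEKStmt : Prop := ∀ (n : ℕ) (U : Finset (E (n + 2))) (c : E (n + 2) → ℝ)
  (u ν : E (n + 2)) (ι : E n →ₗᵢ[ℝ] E (n + 2)), Un U → Bornology.IsBounded (Pl U c) →
  ‖u‖ = 1 → ‖ν‖ = 1 → inner ℝ u ν = 0 → (∀ z, inner ℝ u (ι z) = 0) →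
  (∀ z, inner ℝ ν (ι z) = 0) → (∀ w ∈ U, inner ℝ u w ≠ 0) → ∃ δ : ℝ, 0 < δ ∧
  ∀ t : ℝ, |t| < δ →
    ((volume : Measure ℝ).prod (volume : Measure (E n))).real (shadow t (coord u ν ι ⁻¹' Pl U c)) +
    ((volume : Measure ℝ).prod (volume : Measure (E n))).real
      (shadow (-t) (coord u ν ι ⁻¹' Pl U c)) =
    2 * ((volume : Measure ℝ).prod (volume : Measure (E n))).real
      (shadow 0 (coord u ν ι ⁻¹' Pl U c))

/-- SEL: the second difference of the shadows is positive if there is a touching ball. -/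
def SELStmt : Prop := ∀ (n : ℕ) (L : Set (E (n + 2))) (u ν y : E (n + 2)) (ρ : ℝ)
  (ι : E n →ₗᵢ[ℝ] E (n + 2)), Cb L →
  ‖u‖ = 1 → ‖ν‖ = 1 → inner ℝ u ν = 0 → (∀ z, inner ℝ u (ι z) = 0) →
  (∀ z, inner ℝ ν (ι z) = 0) → 0 < ρ → closedBall y ρ ⊆ L →
  (∀ z ∈ L, inner ℝ z ν ≤ inner ℝ y ν + ρ) → ∀ t : ℝ, t ≠ 0 →
    2 * ((volume : Measure ℝ).prod (volume : Measure (E n))).real
      (shadow 0 (coord u ν ι ⁻¹' L)) <
    ((volume : Measure ℝ).prod (volume : Measure (E n))).real (shadow t (coord u ν ι ⁻¹' L)) +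
    ((volume : Measure ℝ).prod (volume : Measure (E n))).real
      (shadow (-t) (coord u ν ι ⁻¹' L))

/-- SPO: a body with the data of a polytope is a polytope with the same normals up to sign. -/
def SPOStmt : Prop := ∀ (n : ℕ), 2 ≤ n → ∀ (U : Finset (E n)) (c : E n → ℝ) (L : Set (E n)),
  Un U → Cb (Pl U c) → Cb L → SameData (Pl U c) L →
  L = {x | ∀ w : E n, (w ∈ U ∨ -w ∈ U) → inner ℝ x w ≤ hs L w}

/-- The length of the top face of a planar slice. -/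
noncomputable def lt (S : Set (ℝ × ℝ)) : ℝ := (volume {s : ℝ | (s, KC.T S 0) ∈ S}).toReal

/-- LIM: the limit of the second differences. -/
def LIMStmt : Prop := ∀ (n : ℕ) (X : Set (ℝ × ℝ × E n)), IsCompact X → Convex ℝ X →
  ∀ (f : (ℝ × E n) →L[ℝ] ℝ) (k : ℝ) (τ : ℕ → ℝ), (∀ j, 0 < τ j) → Tendsto τ atTop (𝓝 0) →
  Tendsto (fun j =>
    ((∫ p in shadow (τ j) X, (f p + k) ∂((volume : Measure ℝ).prod (volume : Measure (E n)))) +
     (∫ p in shadow (-τ j) X, (f p + k) ∂((volume : Measure ℝ).prod (volume : Measure (E n)))) -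
     2 * ∫ p in shadow 0 X, (f p + k) ∂((volume : Measure ℝ).prod (volume : Measure (E n))))
      / τ j) atTop
    (𝓝 (∫ z : E n, (lt (KC.slice X z) * (f (KC.T (KC.slice X z) 0, z) + k) +
      lt (KC.refl (KC.slice X z)) * (f (KC.B (KC.slice X z) 0, z) + k))))

/-- FAC: the faces of a polytope in coordinates. -/
def FACStmt : Prop := ∀ (n : ℕ) (V : Finset (E (n + 2))) (c : E (n + 2) → ℝ)
  (u ν : E (n + 2)) (ι : E n →ₗᵢ[ℝ] E (n + 2)), Un V → Bornology.IsBounded (Pl V c) → ν ∈ V →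
  -ν ∈ V → ‖u‖ = 1 → inner ℝ u ν = 0 → (∀ z, inner ℝ u (ι z) = 0) →
  (∀ z, inner ℝ ν (ι z) = 0) → (∀ w ∈ V, w ≠ ν → w ≠ -ν → inner ℝ u w ≠ 0) →
  MeasurePreserving (coord u ν ι)
    ((volume : Measure ℝ).prod ((volume : Measure ℝ).prod (volume : Measure (E n)))) volume →
  Integrable (fun z : E n => lt (KC.slice (coord u ν ι ⁻¹' Pl V c) z)) ∧
  Integrable (fun z : E n => lt (KC.refl (KC.slice (coord u ν ι ⁻¹' Pl V c) z))) ∧
  (∫ z : E n, lt (KC.slice (coord u ν ι ⁻¹' Pl V c) z) = fa V c ν) ∧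
  (∫ z : E n, lt (KC.refl (KC.slice (coord u ν ι ⁻¹' Pl V c) z)) = fa V c (-ν)) ∧
  (∀ z : E n, lt (KC.slice (coord u ν ι ⁻¹' Pl V c) z) ≠ 0 →
    KC.T (KC.slice (coord u ν ι ⁻¹' Pl V c) z) 0 = c ν) ∧
  (∀ z : E n, lt (KC.refl (KC.slice (coord u ν ι ⁻¹' Pl V c) z)) ≠ 0 →
    KC.B (KC.slice (coord u ν ι ⁻¹' Pl V c) z) 0 = - c (-ν))

/-- DAT: the facet data of two polytopes with the same projection data. -/
def DATStmt : Prop := ∀ (n : ℕ), 2 ≤ n → ∀ (V : Finset (E n)) (c c' : E n → ℝ), Un V →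
  (∀ w ∈ V, -w ∈ V) → Cb (Pl V c) → Cb (Pl V c') → SameData (Pl V c) (Pl V c') → ∀ w ∈ V,
  fa V c w + fa V c (-w) = fa V c' w + fa V c' (-w) ∧
  fa V c w * c w - fa V c (-w) * c (-w) = fa V c' w * c' w - fa V c' (-w) * c' (-w)

/-- TRS: a translate of `K` inside `L`. -/
def TRSStmt : Prop := ∀ (n : ℕ), 2 ≤ n → ∀ (K L : Set (E n)) (x₀ : E n), Cb K → Cb L →
  SameData K L → (∀ x ∈ K, x₀ + x ∈ L) → K = L

/-! ### The theorem -/

/-- The face of `K` in direction `w`. -/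
def face {n : ℕ} (K : Set (E n)) (w : E n) : Set (E n) :=
  {x | x ∈ K ∧ ∀ y ∈ K, inner ℝ y w ≤ inner ℝ x w}

/-- FIN: the theorem. -/
def FINStmt : Prop := ∀ (ι : Type) [Finite ι] (v : ι → E 3) (c : ι → ℝ) (K L : Set (E 3)),
  K = {x | ∀ i, inner ℝ x (v i) ≤ c i} → Cb K →
  (∀ w : E 3, w ≠ 0 → Module.finrank ℝ (vectorSpan ℝ (face K w)) < 2 ∨
    Module.finrank ℝ (vectorSpan ℝ (face K (-w))) < 2) →
  Cb L → SameData K L → K = L

end PV3
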